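import Pool.Agent.H44.DG.Targets

/-! Module SND: soundness of the label version `LR` of the good states. -/

namespace Pool.Agent.H85.DG.SND

open Pool.Agent.H44.DG

variable {V : Type}

lemma cmap_map (w : Cycle ℕ) (lab : ℕ → ℕ) (f : ℕ → V) : (w.map lab).map f = w.map (fun i => f (lab i)) := by
  induction w using Quotient.inductionOn with
  | _ l =>
    show (((l : Cycle ℕ).map lab).map f) = (l : Cycle ℕ).map (fun i => f (lab i))
    rw [Cycle.map_coe, Cycle.map_coe, Cycle.map_coe, List.map_map]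
    rfl

lemma real_bind (c : Ctx V) (S : LF) (g : Tag × Cycle ℕ → LF) :
    real c (S.bind g) = S.bind (fun x => real c (g x)) := by
  unfold real
  rw [Multiset.bind_assoc]

lemma vs_bind (c : Ctx V) (S : LF) (g : Tag × Cycle ℕ → LF) :
    vs c (S.bind g) = S.bind (fun x => vs c (g x)) := by
  unfold vs
  rw [Multiset.bind_assoc]

lemma real_sing (c : Ctx V) (x : Tag × Cycle ℕ) : real c {x} = real1 c x := by
  unfold real
  exact Multiset.singleton_bind _ _

lemma vs_sing (c : Ctx V) (x : Tag × Cycle ℕ) : vs c {x} = vs1 c x := by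
  unfold vs
  exact Multiset.singleton_bind _ _

lemma real_cons (c : Ctx V) (x : Tag × Cycle ℕ) (L : LF) : real c (x ::ₘ L) = real1 c x + real c L := by
  unfold real
  exact Multiset.cons_bind _ _ _

lemma vs_cons (c : Ctx V) (x : Tag × Cycle ℕ) (L : LF) : vs c (x ::ₘ L) = vs1 c x + vs c L := by
  unfold vs
  exact Multiset.cons_bind _ _ _

lemma toLF_cons (x : Tag × List ℕ) (L : List (Tag × List ℕ)) :
    toLF (x :: L) = (x.1, (x.2 : Cycle ℕ)) ::ₘ toLF L := rfl

/-- the context of the substituted picture -/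
def ctx' (c : Ctx V) (lab : ℕ → ℕ) (sI : ℕ → Multiset ℕ) (sL : ℕ → LF) (fl : Region V) (W : Multiset V)
    (FI : Multiset (Region V)) : Ctx V where
  f := fun i => c.f (lab i)
  FL := fun _ => fl
  WL := fun _ => W
  FI := fun _ => FI
  FS := fun i => real c (sL i)
  WS := fun i => (sI i).map c.f + vs c (sL i)

lemma real_sub (c : Ctx V) (lab : ℕ → ℕ) (sI : ℕ → Multiset ℕ) (sL : ℕ → LF) (fl : Region V) (W : Multiset V)
    (FI : Multiset (Region V)) (t : Tag) (S : LF) (hS : ∀ x ∈ S, ∀ k, x.1 ≠ Tag.R k) :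
    real c (S.bind (sub1 lab t sL)) = real (ctx' c lab sI sL fl W FI) S := by
  rw [real_bind]
  unfold real
  apply Multiset.bind_congr
  rintro ⟨s, w⟩ hx
  cases s with
  | E =>
    show real c {(Tag.E, w.map lab)} = {{w.map (fun i => c.f (lab i))}}
    rw [real_sing]
    show ({{(w.map lab).map c.f}} : Multiset (Region V)) = _
    rw [cmap_map]
  | R k => exact absurd rfl (hS _ hx k)
  | T i => rfl

lemma vs_sub (c : Ctx V) (lab : ℕ → ℕ) (sI : ℕ → Multiset ℕ) (sL : ℕ → LF) (fl : Region V) (W : Multiset V)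
    (FI : Multiset (Region V)) (t : Tag) (S : LF) (hS : ∀ x ∈ S, ∀ k, x.1 ≠ Tag.R k) :
    (S.bind (subI sI)).map c.f + vs c (S.bind (sub1 lab t sL)) = vs (ctx' c lab sI sL fl W FI) S := by
  rw [vs_bind, Multiset.map_bind, ← Multiset.bind_add]
  unfold vs
  apply Multiset.bind_congr
  rintro ⟨s, w⟩ hx
  cases s with
  | E =>
    show (0 : Multiset ℕ).map c.f + vs c {(Tag.E, w.map lab)} = 0
    rw [vs_sing]
    rfl
  | R k => exact absurd rfl (hS _ hx k)
  | T i => rfl

lemma base_noR {n : ℕ} {r : List ℕ} {base : List (Tag × List ℕ)} (hS : (n, r, base) ∈ openList) :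
    ∀ x ∈ toLF base, ∀ k, x.1 ≠ Tag.R k := by
  simp only [openList, List.mem_cons, Prod.mk.injEq, List.not_mem_nil, or_false] at hS
  rcases hS with ⟨_, _, rfl⟩ | ⟨_, _, rfl⟩ | ⟨_, _, rfl⟩ | ⟨_, _, rfl⟩ | ⟨_, _, rfl⟩ | ⟨_, _, rfl⟩ <;>
    simp [toLF]

/-- **SND.** Soundness of `LR`. -/
theorem pf_SND : T_SND := by
  intro V o I L h
  induction h with
  | old i w =>
    intro c hT _
    have := hT i w (Multiset.mem_singleton_self _)
    rw [vs_sing, real_sing]
    show Reg (w.map c.f) ((0 : Multiset ℕ).map c.f + c.WS i) (c.FS i)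
    rw [Multiset.map_zero, zero_add]
    exact this
  | comp n S hS lab sI sL h ih =>
    intro c hT hR
    have key := Reg.comp n S hS (ctx' c lab sI sL 0 0 0) (by
      intro i w hi
      have h1 := ih i w hi c
        (fun j w' hj => hT j w' (Multiset.mem_bind.2 ⟨_, hi, hj⟩))
        (fun k w' hk => hR k w' (Multiset.mem_bind.2 ⟨_, hi, hk⟩))
      rw [cmap_map] at h1
      exact h1)
    rw [real_sub c lab sI sL 0 0 0 .E S hS.noR, Multiset.map_add, add_assoc,
      vs_sub c lab sI sL 0 0 0 .E S hS.noR]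
    have e1 : ((↑[lab 0, lab 1, lab 2] : Cycle ℕ).map c.f) = (↑[c.f (lab 0), c.f (lab 1), c.f (lab 2)] : Cycle V) := by
      rw [Cycle.map_coe]; rfl
    have e2 : (((inner n).map lab : Multiset ℕ)).map c.f = ((inner n).map (fun i => c.f (lab i)) : Multiset V) := by
      rw [Multiset.map_coe, List.map_map]; rfl
    rw [e1, e2]
    exact key
  | opn n r base hS t ht lab sI sL h ih =>
    intro c hT hR
    have hno := base_noR hS
    have hbind : (toLF ((.R 0, r) :: base)).bind (sub1 lab t sL)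
        = (t, (r : Cycle ℕ).map lab) ::ₘ (toLF base).bind (sub1 lab t sL) := by
      rw [toLF_cons, Multiset.cons_bind]
      rfl
    rw [hbind] at hT hR ⊢
    have hT' : ∀ fl W FI, ∀ i w, (Tag.T i, w) ∈ toLF base →
        Reg (w.map (ctx' c lab sI sL fl W FI).f) ((ctx' c lab sI sL fl W FI).WS i)
          ((ctx' c lab sI sL fl W FI).FS i) := by
      intro fl W FI i w hi
      have h1 := ih i w hi c
        (fun j w' hj => hT j w' (Multiset.mem_cons_of_mem (Multiset.mem_bind.2 ⟨_, hi, hj⟩)))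
        (fun k w' hk => hR k w' (Multiset.mem_cons_of_mem (Multiset.mem_bind.2 ⟨_, hi, hk⟩)))
      rw [cmap_map] at h1
      exact h1
    have e1 : ((↑[lab 0, lab 1, lab 2] : Cycle ℕ).map c.f) = (↑[c.f (lab 0), c.f (lab 1), c.f (lab 2)] : Cycle V) := by
      rw [Cycle.map_coe]; rfl
    have e2 : (((inner n).map lab : Multiset ℕ)).map c.f = ((inner n).map (fun i => c.f (lab i)) : Multiset V) := by
      rw [Multiset.map_coe, List.map_map]; rfl
    have er : ∀ fl W FI, real1 c (t, (r : Cycle ℕ).map lab) = real1 (ctx' c lab sI sL fl W FI) (.R 0, (r : Cycle ℕ)) →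
        vs1 c (t, (r : Cycle ℕ).map lab) = vs1 (ctx' c lab sI sL fl W FI) (.R 0, (r : Cycle ℕ)) →
        Reg ↑[(ctx' c lab sI sL fl W FI).f 0, (ctx' c lab sI sL fl W FI).f 1, (ctx' c lab sI sL fl W FI).f 2]
          (((inner n).map (ctx' c lab sI sL fl W FI).f : Multiset V) +
            vs (ctx' c lab sI sL fl W FI) (toLF ((.R 0, r) :: base)))
          (real (ctx' c lab sI sL fl W FI) (toLF ((.R 0, r) :: base))) →
        Reg ((↑[lab 0, lab 1, lab 2] : Cycle ℕ).map c.f)
          ((((inner n).map lab : Multiset ℕ) + (toLF base).bind (subI sI)).map c.f +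
            vs c ((t, (r : Cycle ℕ).map lab) ::ₘ (toLF base).bind (sub1 lab t sL)))
          (real c ((t, (r : Cycle ℕ).map lab) ::ₘ (toLF base).bind (sub1 lab t sL))) := by
      intro fl W FI h1 h2 h3
      rw [toLF_cons, real_cons, vs_cons, ← h1, ← h2] at h3
      rw [real_cons, vs_cons, real_sub c lab sI sL fl W FI t (toLF base) hno, Multiset.map_add, e1, e2]
      have e3 := vs_sub c lab sI sL fl W FI t (toLF base) hno
      rw [← e3] at h3
      have e4 : ((inner n).map (fun i => c.f (lab i)) : Multiset V) + ((toLF base).bind (subI sI)).map c.f +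
            (vs1 c (t, (r : Cycle ℕ).map lab) + vs c ((toLF base).bind (sub1 lab t sL)))
          = ((inner n).map (fun i => c.f (lab i)) : Multiset V) +
            (vs1 c (t, (r : Cycle ℕ).map lab) +
              (((toLF base).bind (subI sI)).map c.f + vs c ((toLF base).bind (sub1 lab t sL)))) := by
        rw [add_assoc, add_left_comm (Multiset.map c.f _)]
      rw [e4]
      exact h3
    rcases ht with rfl | ⟨k, rfl⟩
    · refine er 0 0 0 ?_ rfl (Reg.openA n r base hS (ctx' c lab sI sL 0 0 0) (hT' 0 0 0) Floats.nil rfl)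
      show ({{((r : Cycle ℕ).map lab).map c.f}} : Multiset (Region V)) = {{(r : Cycle ℕ).map (fun i => c.f (lab i))}}
      rw [cmap_map]
    · have e5 : real1 c (Tag.R k, (r : Cycle ℕ).map lab)
          = real1 (ctx' c lab sI sL (c.FL k) (c.WL k) (c.FI k)) (.R 0, (r : Cycle ℕ)) := by
        show (((r : Cycle ℕ).map lab).map c.f ::ₘ c.FL k) ::ₘ c.FI k
          = ((r : Cycle ℕ).map (fun i => c.f (lab i)) ::ₘ c.FL k) ::ₘ c.FI k
        rw [cmap_map]
      have hC := hR k _ (Multiset.mem_cons_self _ _)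
      refine er (c.FL k) (c.WL k) (c.FI k) e5 rfl ?_
      rcases hC with ⟨hf, hFI⟩ | ⟨x, y, z, W', hFL, hWL, hB⟩
      · exact Reg.openA n r base hS (ctx' c lab sI sL (c.FL k) (c.WL k) (c.FI k)) (hT' _ _ _) hf hFI
      · exact Reg.openB n r base hS (ctx' c lab sI sL (c.FL k) (c.WL k) (c.FI k)) (hT' _ _ _) x y z W' hFL hWL hB

end Pool.Agent.H85.DG.SND
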