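import Pool.Agent.H44.DG.Targets

/-! Module PTH: decorated paths of a labelled picture give Hamiltonian paths of its realisation. -/

namespace Pool.Agent.H85.DG.PTH

open Pool.Agent.H44.DG

variable {V : Type}

lemma achain_append (F : Multiset (Region V)) (b : V) (l₂ : List V) : ∀ (l₁ : List V) (a : V),
    AChain F a (l₁ ++ [b]) → AChain F b l₂ → AChain F a (l₁ ++ b :: l₂) := by
  intro l₁
  induction l₁ with
  | nil => intro a h1 h2; exact ⟨h1.1, h2⟩
  | cons x l₁ ih => intro a h1 h2; exact ⟨h1.1, ih x h1.2 h2⟩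

lemma achain_mono {F G : Multiset (Region V)} (h : ∀ x y, Adj F x y → Adj G x y) : ∀ (l : List V) (a : V),
    AChain F a l → AChain G a l := by
  intro l
  induction l with
  | nil => intro a _; trivial
  | cons x l ih => intro a h1; exact ⟨h _ _ h1.1, ih x h1.2⟩

/-- the inner vertices used by one step -/
def ow (c : Ctx V) : Option ℕ → Multiset V
  | none => 0
  | some i => c.WS i

lemma bind_reduce (c : Ctx V) (o : Option ℕ) (l : List (Option ℕ)) :
    (((o :: l).reduceOption : List ℕ) : Multiset ℕ).bind c.WS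
      = ow c o + ((l.reduceOption : List ℕ) : Multiset ℕ).bind c.WS := by
  cases o with
  | none => simp [ow]
  | some i => simp [ow, ← Multiset.cons_coe]

lemma adj_part (c : Ctx V) (L : LF) (i : ℕ) (w : Cycle ℕ) (h : (Tag.T i, w) ∈ L) (x y : V)
    (hxy : Adj (c.FS i) x y) : Adj (real c L) x y := by
  obtain ⟨Φ, hΦ, h'⟩ := hxy
  exact ⟨Φ, Multiset.mem_bind.2 ⟨_, h, hΦ⟩, h'⟩

lemma mem_cmap {w : Cycle ℕ} {f : ℕ → V} {x : ℕ} (h : x ∈ w) : f x ∈ w.map f := by
  induction w using Quotient.inductionOn with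
  | _ l =>
    show f x ∈ ((l : Cycle ℕ).map f)
    rw [Cycle.map_coe, Cycle.mem_coe_iff]
    exact List.mem_map_of_mem h

lemma step (hadj : T_ADJ) (c : Ctx V) (n : ℕ) (L : LF) (hC : COK c n L)
    (hHP : ∀ i w, (Tag.T i, w) ∈ L → ∀ a b, a ∈ w.map c.f → b ∈ w.map c.f → a ≠ b →
      HP (c.FS i) a b (c.WS i)) (x y : ℕ) (hx : x < n) (hy : y < n) (hxy : x ≠ y) (o : Option ℕ)
    (h : StepOK L x o y) :
    ∃ l : List V, (l : Multiset V) = ow c o ∧ AChain (real c L) (c.f x) (l ++ [c.f y]) := by
  obtain ⟨h1, h2, -, -⟩ := hadj V c n L hC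
  cases o with
  | none => exact ⟨[], rfl, (h1 x y hx hy hxy).2 h, trivial⟩
  | some i =>
    obtain ⟨_, ⟨t, w⟩, ht, hti, hxt, hyt⟩ := h
    simp only at hti hxt hyt
    subst hti
    obtain ⟨l, hl, hA⟩ := hHP i w ht (c.f x) (c.f y) (mem_cmap hxt) (mem_cmap hyt)
      (fun e => hxy (h2 x y hx hy e))
    exact ⟨l, hl, achain_mono (adj_part c L i w ht) _ _ hA⟩

lemma chain (hadj : T_ADJ) (c : Ctx V) (n : ℕ) (L : LF) (hC : COK c n L)
    (hHP : ∀ i w, (Tag.T i, w) ∈ L → ∀ a b, a ∈ w.map c.f → b ∈ w.map c.f → a ≠ b →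
      HP (c.FS i) a b (c.WS i)) (B : ℕ) (hB : B < n) (o : Option ℕ) :
    ∀ (q : List (Option ℕ × ℕ)) (x : ℕ), x < n → (∀ y ∈ q.map Prod.snd, y < n) →
      (x :: (q.map Prod.snd ++ [B])).Nodup → ChainOK L x (q ++ [(o, B)]) →
      ∃ l : List V, (l : Multiset V) = ((q.map Prod.snd).map c.f : Multiset V) +
          (((q.map Prod.fst ++ [o]).reduceOption : List ℕ) : Multiset ℕ).bind c.WS ∧
        AChain (real c L) (c.f x) (l ++ [c.f B]) := by
  intro q
  induction q with
  | nil =>
    intro x hx _ hnd h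
    obtain ⟨l, hl, hA⟩ := step hadj c n L hC hHP x B hx hB (by
      rintro rfl
      simp at hnd) o h.1
    refine ⟨l, ?_, hA⟩
    rw [hl]
    have := bind_reduce c o []
    simp only [List.map_nil, List.nil_append]
    rw [this]
    simp
  | cons p q ih =>
    obtain ⟨o', y⟩ := p
    intro x hx hq hnd h
    have hy : y < n := hq y (by simp)
    have hnd' : x ∉ y :: (q.map Prod.snd ++ [B]) ∧ (y :: (q.map Prod.snd ++ [B])).Nodup := by
      simpa only [List.map_cons, List.cons_append, List.nodup_cons] using List.nodup_cons.1 hnd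
    have hxy : x ≠ y := fun e => hnd'.1 (by rw [e]; exact List.mem_cons_self)
    obtain ⟨l₁, hl₁, hA₁⟩ := step hadj c n L hC hHP x y hx hy hxy o' h.1
    obtain ⟨l₂, hl₂, hA₂⟩ := ih y hy (fun z hz => hq z (by
      rw [List.map_cons]; exact List.mem_cons_of_mem _ hz)) hnd'.2 h.2
    refine ⟨l₁ ++ c.f y :: l₂, ?_, ?_⟩
    · rw [← Multiset.coe_add, ← Multiset.cons_coe, hl₁, hl₂]
      simp only [List.map_cons, List.cons_append]
      rw [bind_reduce, ← Multiset.cons_coe]
      simp only [← Multiset.singleton_add]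
      abel
    · have := achain_append (real c L) (c.f y) (l₂ ++ [c.f B]) l₁ (c.f x) hA₁ hA₂
      simpa using this

lemma tags_cons (x : Tag × Cycle ℕ) (L : LF) : tags (x ::ₘ L) = (match x.1 with
    | .T i => {i}
    | _ => 0) + tags L := by
  obtain ⟨t, w⟩ := x
  unfold tags
  cases t with
  | E => rw [Multiset.filterMap_cons_none _ _ rfl]; simp
  | R k => rw [Multiset.filterMap_cons_none _ _ rfl]; simp
  | T i =>
    refine (Multiset.filterMap_cons_some _ _ _ (b := i) ?_).trans ?_
    · rfl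
    · exact (Multiset.singleton_add _ _).symm

lemma vs_tags (c : Ctx V) (L : LF) (h : ∀ x ∈ L, ∀ k, x.1 ≠ Tag.R k) : vs c L = (tags L).bind c.WS := by
  induction L using Multiset.induction_on with
  | empty => rfl
  | cons x L ih =>
    have h1 := ih (fun y hy => h y (Multiset.mem_cons_of_mem hy))
    have h2 : vs c (x ::ₘ L) = vs1 c x + vs c L := by
      unfold vs
      exact Multiset.cons_bind _ _ _
    rw [h2, h1, tags_cons, Multiset.add_bind]
    congr 1
    obtain ⟨t, w⟩ := x
    cases t with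
    | E => rfl
    | R k => exact absurd rfl (h _ (Multiset.mem_cons_self _ _) k)
    | T i => simp [vs1]

lemma mem_inner {n i : ℕ} (h : i ∈ inner n) : 3 ≤ i ∧ i < n := by
  unfold Pool.Agent.H44.DG.inner at h
  rw [List.mem_iff_getElem] at h
  obtain ⟨k, hk, rfl⟩ := h
  rw [List.getElem_drop, List.getElem_range]
  simp only [List.length_drop, List.length_range] at hk
  omega

lemma nodup_inner (n : ℕ) : (inner n).Nodup := by
  unfold Pool.Agent.H44.DG.inner
  exact List.Nodup.sublist (List.drop_sublist _ _) List.nodup_range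

/-- **PTH.** Decorated paths give Hamiltonian paths. -/
theorem pf_PTH (hadj : T_ADJ) : T_PTH := by
  intro V c n L hL hC hHP A B hA hB hAB hP
  obtain ⟨q, o, hch, hperm, htags⟩ := hP
  have h3 := hL.three
  have hq : ∀ y ∈ q.map Prod.snd, 3 ≤ y ∧ y < n := fun y hy => mem_inner (hperm.mem_iff.1 hy)
  have hnd : (A :: (q.map Prod.snd ++ [B])).Nodup := by
    rw [List.nodup_cons]
    constructor
    · intro h
      rw [List.mem_append, List.mem_singleton] at h
      rcases h with h | h
      · have := (hq A h).1; omega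
      · exact hAB h
    · rw [List.nodup_append]
      refine ⟨hperm.nodup_iff.2 (nodup_inner n), List.nodup_singleton _, ?_⟩
      intro a ha b hb hab
      rw [List.mem_singleton] at hb
      subst hb
      subst hab
      have := (hq a ha).1
      omega
  obtain ⟨l, hl, hAc⟩ := chain hadj c n L hC hHP B (by omega) o q A (by omega) (fun y hy => (hq y hy).2) hnd hch
  refine ⟨l, ?_, hAc⟩
  rw [hl, htags, vs_tags c L hL.noR]
  congr 1
  exact Multiset.coe_eq_coe.2 (hperm.map c.f)

end Pool.Agent.H85.DG.PTH
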