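import Pool.Agent.H44.DG.Targets4

/-! Module SE: every cycle of the graph bounds, modulo 2, a set of regions. -/

namespace Pool.Agent.H85.DG.SE

open Pool.Agent.H44.DG

variable {V : Type}

lemma mem_dts {w : Cycle V} {e : V × V} : e ∈ dts w ↔ IsDart w e.1 e.2 := by
  induction w using Quotient.inductionOn with
  | _ l =>
    show e ∈ (↑(cprs l) : Multiset (V × V)) ↔ IsDart ↑l e.1 e.2
    rw [isDart_coe]
    exact Multiset.mem_coe

lemma mem_rdts {Φ : Region V} {e : V × V} : e ∈ rdts Φ ↔ ∃ w ∈ Φ, IsDart w e.1 e.2 := by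
  unfold rdts
  rw [Multiset.mem_bind]
  simp only [mem_dts]

lemma prs_fst : ∀ L : List V, (prs L).map Prod.fst = L.dropLast
  | [] => rfl
  | [_] => rfl
  | x :: y :: l => by
    rw [prs_cons_cons, List.map_cons, prs_fst (y :: l)]
    rfl

lemma prs_snd : ∀ L : List V, (prs L).map Prod.snd = L.tail
  | [] => rfl
  | [_] => rfl
  | x :: y :: l => by
    rw [prs_cons_cons, List.map_cons, prs_snd (y :: l)]
    rfl

lemma dts_closed (w : Cycle V) : (dts w).map Prod.fst = (dts w).map Prod.snd := by
  induction w using Quotient.inductionOn with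
  | _ l =>
    show (↑(cprs l) : Multiset (V × V)).map Prod.fst = (↑(cprs l) : Multiset (V × V)).map Prod.snd
    rw [Multiset.map_coe, Multiset.map_coe, Multiset.coe_eq_coe]
    rcases l with _ | ⟨x, _ | ⟨y, l⟩⟩
    · exact List.Perm.refl _
    · exact List.Perm.refl _
    · rw [cprs_cons_cons, prs_fst, prs_snd]
      have h : x :: y :: (l ++ [x]) = (x :: y :: l) ++ [x] := rfl
      rw [h, List.dropLast_concat]
      show (x :: (y :: l)).Perm ((y :: l) ++ [x])
      exact (List.perm_append_singleton x (y :: l)).symm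

lemma rdts_closed (Φ : Region V) : (rdts Φ).map Prod.fst = (rdts Φ).map Prod.snd := by
  unfold rdts
  rw [Multiset.map_bind, Multiset.map_bind]
  exact Multiset.bind_congr fun w _ => dts_closed w

lemma sum_fst {n : ℕ} (c : ZMod 2) (p : Fin n) (M : Multiset (Fin n × Fin n)) : M.Nodup →
    ∑ q, (if (p, q) ∈ M then c else 0) = (M.map Prod.fst).count p • c := by
  induction M using Multiset.induction_on with
  | empty => intro _; simp
  | cons e M ih =>
    intro hM
    rw [Multiset.nodup_cons] at hM
    rw [Multiset.map_cons, Multiset.count_cons, add_smul, ← ih hM.2]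
    have h1 : ∀ q, (if (p, q) ∈ e ::ₘ M then c else 0) = (if (p, q) ∈ M then c else 0) +
        (if q = e.2 then (if p = e.1 then c else 0) else 0) := by
      intro q
      simp only [Multiset.mem_cons]
      by_cases h : (p, q) = e
      · subst h
        simp [hM.1]
      · have h2 : (if q = e.2 then (if p = e.1 then c else 0) else 0) = 0 := by
          by_cases hq : q = e.2
          · by_cases hp : p = e.1
            · exact absurd (by rw [hp, hq]) h
            · simp [hp]
          · simp [hq]
        rw [h2, add_zero]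
        simp [h]
    rw [Finset.sum_congr rfl fun q _ => h1 q, Finset.sum_add_distrib, Finset.sum_ite_eq' Finset.univ e.2]
    simp

lemma sum_snd {n : ℕ} (c : ZMod 2) (p : Fin n) (M : Multiset (Fin n × Fin n)) : M.Nodup →
    ∑ q, (if (q, p) ∈ M then c else 0) = (M.map Prod.snd).count p • c := by
  induction M using Multiset.induction_on with
  | empty => intro _; simp
  | cons e M ih =>
    intro hM
    rw [Multiset.nodup_cons] at hM
    rw [Multiset.map_cons, Multiset.count_cons, add_smul, ← ih hM.2]
    have h1 : ∀ q, (if (q, p) ∈ e ::ₘ M then c else 0) = (if (q, p) ∈ M then c else 0) +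
        (if q = e.1 then (if p = e.2 then c else 0) else 0) := by
      intro q
      simp only [Multiset.mem_cons]
      by_cases h : (q, p) = e
      · subst h
        simp [hM.1]
      · have h2 : (if q = e.1 then (if p = e.2 then c else 0) else 0) = 0 := by
          by_cases hq : q = e.1
          · by_cases hp : p = e.2
            · exact absurd (by rw [hp, hq]) h
            · simp [hp]
          · simp [hq]
        rw [h2, add_zero]
        simp [h]
    rw [Finset.sum_congr rfl fun q _ => h1 q, Finset.sum_add_distrib, Finset.sum_ite_eq' Finset.univ e.1]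
    simp

lemma two_z (a : ZMod 2) : a + a = 0 := CharTwo.add_self_eq_zero a

/-- symmetric sums vanish modulo 2 -/
lemma sym_sum {n : ℕ} (h : Fin n → Fin n → ZMod 2) (hs : ∀ p q, h p q = h q p) (hd : ∀ p, h p p = 0) :
    ∑ p, ∑ q, h p q = 0 := by
  rw [← Finset.sum_product']
  refine Finset.sum_involution (fun a _ => (a.2, a.1)) ?_ ?_ ?_ ?_
  · intro a _
    rw [hs a.2 a.1]
    exact two_z _
  · rintro ⟨p, q⟩ _ hne heq
    simp only [Prod.mk.injEq] at heq
    apply hne
    rw [heq.1]
    exact hd _
  · intro a _; simp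
  · intro a _; rfl

/-- the final step, common to both kinds of moves -/
lemma core {n : ℕ} {D D' : Drawing (Fin n)} {u v : Fin n} {Φ : Region (Fin n)}
    {Ψ F : Multiset (Region (Fin n))} (hreg : D.regions = Φ ::ₘ F) (hreg' : D'.regions = Ψ + F)
    (hm : RegionMove u v Φ Ψ) (hnadj : ¬ Adj D.regions u v) (x I : Fin n → Fin n → ZMod 2)
    (hx : ∀ p q, x p q = x q p)
    (hI : ∀ Φ' ∈ F, ∀ e ∈ rdts Φ', I e.1 e.2 = 0)
    (hI1 : ∀ Φ' ∈ Ψ, ∀ e ∈ rdts Φ', ∀ e' ∈ rdts Φ', I e.1 e.2 = I e'.1 e'.2)
    (hIuv : x u v = I u v + I v u) (s : Fin n → Fin n → ZMod 2)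
    (hs : ∀ Φ ∈ D.regions, ∀ e ∈ rdts Φ, ∀ e' ∈ rdts Φ, s e.1 e.2 = s e'.1 e'.2)
    (hy : ∀ p q, Adj D.regions p q → x p q + I p q + I q p = s p q + s q p) :
    ∃ s : Fin n → Fin n → ZMod 2,
      (∀ Φ ∈ D'.regions, ∀ e ∈ rdts Φ, ∀ e' ∈ rdts Φ, s e.1 e.2 = s e'.1 e'.2) ∧
      ∀ p q, Adj D'.regions p q → x p q = s p q + s q p := by
  classical
  obtain ⟨t, ht⟩ : ∃ t, ∀ e ∈ rdts Φ, s e.1 e.2 = t := by
    rcases Multiset.empty_or_exists_mem (rdts Φ) with h | ⟨e, he⟩
    · exact ⟨0, fun e he => by rw [h] at he; simp at he⟩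
    · exact ⟨s e.1 e.2, fun e' he' => hs Φ (by rw [hreg]; exact Multiset.mem_cons_self _ _) e' he' e he⟩
  have hnew : ∀ p q, (p = u ∧ q = v) ∨ (p = v ∧ q = u) → ¬ Adj D.regions p q := by
    rintro p q (⟨rfl, rfl⟩ | ⟨rfl, rfl⟩)
    · exact hnadj
    · exact fun h => hnadj h.symm
  refine ⟨fun p q => (if (p = u ∧ q = v) ∨ (p = v ∧ q = u) then t else s p q) + I p q, ?_, ?_⟩
  · intro Φ' hΦ'
    rw [hreg', Multiset.mem_add] at hΦ'
    rcases hΦ' with hΦ' | hΦ'
    · have hval : ∀ e ∈ rdts Φ', (if (e.1 = u ∧ e.2 = v) ∨ (e.1 = v ∧ e.2 = u) then t else s e.1 e.2) = t := by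
        intro e he
        split_ifs with h
        · rfl
        · have := (hm.dart e.1 e.2).1 ⟨Φ', hΦ', mem_rdts.1 he⟩
          rcases this with h1 | h1
          · exact ht e (mem_rdts.2 h1)
          · exact absurd h1 h
      intro e he e' he'
      simp only
      rw [hval e he, hval e' he', hI1 Φ' hΦ' e he e' he']
    · have hval : ∀ e ∈ rdts Φ', (if (e.1 = u ∧ e.2 = v) ∨ (e.1 = v ∧ e.2 = u) then t else s e.1 e.2) = s e.1 e.2 := by
        intro e he
        refine if_neg fun h => hnew _ _ h ?_
        obtain ⟨w, hw, hd⟩ := mem_rdts.1 he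
        exact ⟨Φ', by rw [hreg]; exact Multiset.mem_cons_of_mem hΦ', w, hw, Or.inl hd⟩
      intro e he e' he'
      simp only
      rw [hval e he, hval e' he', hI Φ' hΦ' e he, hI Φ' hΦ' e' he',
        hs Φ' (by rw [hreg]; exact Multiset.mem_cons_of_mem hΦ') e he e' he']
  · intro p q hpq
    simp only
    by_cases h : (p = u ∧ q = v) ∨ (p = v ∧ q = u)
    · have h' : (q = u ∧ p = v) ∨ (q = v ∧ p = u) := by tauto
      rw [if_pos h, if_pos h']
      have h1 : x p q = I p q + I q p := by
        rcases h with ⟨rfl, rfl⟩ | ⟨rfl, rfl⟩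
        · exact hIuv
        · rw [hx, hIuv, add_comm]
      rw [h1]
      have := two_z t
      linear_combination -this
    · have h' : ¬ ((q = u ∧ p = v) ∨ (q = v ∧ p = u)) := by tauto
      rw [if_neg h, if_neg h']
      have hadj : Adj D.regions p q := by
        rw [hreg', adj_add, hm.adj] at hpq
        rw [hreg, adj_cons]
        tauto
      have h1 := hy p q hadj
      have h2 := two_z (I p q)
      have h3 := two_z (I q p)
      linear_combination h1 - h2 - h3

/-- **SE.** -/
theorem pf_SE (hB : T_SB) (hC : T_SC) : T_SE := by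
  classical
  intro n D hD
  induction hD with
  | refl =>
    intro x _ _ _
    refine ⟨fun _ _ => 0, fun _ _ _ _ _ _ => rfl, ?_⟩
    rintro p q ⟨Φ, hΦ, w, hw, hd⟩
    exfalso
    have hΦ' : Φ = (Finset.univ : Finset (Fin n)).val.map fun v => (↑[v] : Cycle (Fin n)) := by
      simpa [start] using hΦ
    rw [hΦ'] at hw
    obtain ⟨v, -, rfl⟩ := Multiset.mem_map.1 hw
    rw [isDart_coe, isDart_coe] at hd
    simp at hd
  | @tail D D' hD hstep ih =>
    intro x hx1 hx2 hx3
    have hD' : Reach n D' := Relation.ReflTransGen.tail hD hstep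
    obtain ⟨hE, _, _, _, _, _, _, _, _, _⟩ := hC n D hD
    obtain ⟨_, _, _, hnd', hloop', _, _, _, _, _⟩ := hC n D' hD'
    obtain ⟨u, v, huv, he, hedges, Φ, Ψ, F, hreg, hreg', hm⟩ := hstep
    have hnadj : ¬ Adj D.regions u v := by rw [← hE u v huv]; exact he
    have hadj' : ∀ p q, Adj D'.regions p q ↔ Adj D.regions p q ∨ (p = u ∧ q = v) ∨ (p = v ∧ q = u) := by
      intro p q
      rw [hreg', adj_add, hm.adj, hreg, adj_cons]
      tauto
    have hloop : ∀ p, ¬ Adj D'.regions p p := by
      rintro p ⟨Φ', hΦ', w, hw, hd⟩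
      apply hloop' p
      unfold alld
      rw [Multiset.mem_bind]
      exact ⟨Φ', hΦ', mem_rdts.2 ⟨w, hw, by rcases hd with hd | hd <;> exact hd⟩⟩
    cases hm with
    | join l m R =>
      -- the value at the new edge is zero
      obtain ⟨g, hg1, hg2, hg3⟩ := hB n D hD _ F (↑(u :: l) : Cycle (Fin n)) _ hreg rfl
      have hgu : g u = true := hg2 u (by simp)
      have hgv : g v = false := hg3 (↑(v :: m) : Cycle (Fin n)) (Multiset.mem_cons_self _ _) v (by simp)
      have hconst : ∀ p q, Adj D.regions p q → g p = g q := by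
        rintro p q ⟨Φ', hΦ', w, hw, hd⟩
        have hpq : p ∈ w ∧ q ∈ w := by
          rcases hd with hd | hd
          · exact ⟨hd.mem_left, hd.mem_right⟩
          · exact ⟨hd.mem_right, hd.mem_left⟩
        rw [hreg, Multiset.mem_cons] at hΦ'
        rcases hΦ' with rfl | hΦ'
        · rw [Multiset.mem_cons] at hw
          rcases hw with rfl | hw
          · rw [hg2 p hpq.1, hg2 q hpq.2]
          · rw [hg3 w hw p hpq.1, hg3 w hw q hpq.2]
        · exact hg1 Φ' hΦ' w hw w hw p hpq.1 q hpq.2
      have hzero : x u v = 0 := by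
        have h1 : ∑ p, ∑ q, (if g p = true then x p q else 0) = 0 := by
          refine Finset.sum_eq_zero fun p _ => ?_
          by_cases h : g p = true
          · simp only [h, if_true]
            exact hx3 p
          · simp [h]
        have h2 : ∑ p, ∑ q, (if g p = true ∧ g q = true then x p q else 0) = 0 := by
          refine sym_sum (fun p q => if g p = true ∧ g q = true then x p q else 0) ?_ ?_
          · intro p q
            simp only [and_comm (a := g p = true), hx1 p q]
          · intro p
            simp only [hx2 p p (hloop p), ite_self]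
        have h3 : ∑ p, ∑ q, (if g p = true ∧ g q = false then x p q else 0) = x u v := by
          rw [Finset.sum_eq_single u, Finset.sum_eq_single v]
          · rw [if_pos ⟨hgu, hgv⟩]
          · intro q _ hq
            by_cases h : g u = true ∧ g q = false
            · rw [if_pos h]
              apply hx2
              rw [hadj']
              rintro (h' | ⟨_, h'⟩ | ⟨h', _⟩)
              · have := hconst _ _ h'
                rw [h.1, h.2] at this
                exact absurd this (by simp)
              · exact hq h'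
              · exact huv h'
            · rw [if_neg h]
          · intro h; exact absurd (Finset.mem_univ _) h
          · intro p _ hp
            refine Finset.sum_eq_zero fun q _ => ?_
            by_cases h : g p = true ∧ g q = false
            · rw [if_pos h]
              apply hx2
              rw [hadj']
              rintro (h' | ⟨h', _⟩ | ⟨h', _⟩)
              · have := hconst _ _ h'
                rw [h.1, h.2] at this
                exact absurd this (by simp)
              · exact hp h'
              · rw [h', hgv] at h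
                exact absurd h.1 (by simp)
            · rw [if_neg h]
          · intro h; exact absurd (Finset.mem_univ _) h
        have h4 : ∀ p q, (if g p = true then x p q else 0) = (if g p = true ∧ g q = true then x p q else 0) +
            (if g p = true ∧ g q = false then x p q else 0) := by
          intro p q
          cases g p <;> cases g q <;> simp
        simp only [h4, Finset.sum_add_distrib] at h1
        rw [h2, h3, zero_add] at h1
        exact h1
      obtain ⟨s, hs1, hs2⟩ := ih x hx1 (fun p q hpq => by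
        by_cases h : (p = u ∧ q = v) ∨ (p = v ∧ q = u)
        · rcases h with ⟨rfl, rfl⟩ | ⟨rfl, rfl⟩
          · exact hzero
          · rw [hx1]; exact hzero
        · apply hx2
          rw [hadj']
          tauto) hx3
      refine core (D := D) (D' := D') hreg hreg' (RegionMove.join l m R) hnadj x (fun _ _ => 0) hx1
        (fun _ _ _ _ => rfl) (fun _ _ _ _ _ _ => rfl) (by rw [hzero, add_zero]) s hs1 ?_
      intro p q hpq
      rw [add_zero, add_zero]
      exact hs2 p q hpq
    | split l m R₁ R₂ =>
      set Φ₁ : Region (Fin n) := (↑(u :: (l ++ [v])) : Cycle (Fin n)) ::ₘ R₁ with hΦ₁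
      set Φ₂ : Region (Fin n) := (↑(v :: (m ++ [u])) : Cycle (Fin n)) ::ₘ R₂ with hΦ₂
      have hall : alld D'.regions = rdts Φ₁ + (rdts Φ₂ + alld F) := by
        rw [hreg']
        unfold alld
        rw [Multiset.insert_eq_cons, Multiset.cons_add, Multiset.singleton_add, Multiset.cons_bind,
          Multiset.cons_bind]
      rw [hall, Multiset.nodup_add] at hnd'
      obtain ⟨hnd₁, hnd₂, hdis⟩ := hnd'
      have hdis₂ : ∀ e ∈ rdts Φ₂, e ∉ rdts Φ₁ := fun e he he' =>
        Multiset.disjoint_left.1 hdis he' (Multiset.mem_add.2 (Or.inl he))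
      have hdisF : ∀ Φ' ∈ F, ∀ e ∈ rdts Φ', e ∉ rdts Φ₁ := fun Φ' hΦ' e he he' =>
        Multiset.disjoint_left.1 hdis he' (Multiset.mem_add.2 (Or.inr (Multiset.mem_bind.2 ⟨Φ', hΦ', he⟩)))
      have hvu : (v, u) ∈ rdts Φ₁ := by
        refine mem_rdts.2 ⟨_, Multiset.mem_cons_self _ _, ?_⟩
        exact ⟨l, by
          show (↑((u :: l) ++ [v]) : Cycle (Fin n)) = ↑([v] ++ (u :: l))
          exact coe_rot _ _⟩
      have huv' : (u, v) ∈ rdts Φ₂ := by
        refine mem_rdts.2 ⟨_, Multiset.mem_cons_self _ _, ?_⟩
        exact ⟨m, by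
          show (↑((v :: m) ++ [u]) : Cycle (Fin n)) = ↑([u] ++ (v :: m))
          exact coe_rot _ _⟩
      have hm' : RegionMove u v ((↑(u :: (l ++ v :: m)) : Cycle (Fin n)) ::ₘ (R₁ + R₂)) {Φ₁, Φ₂} :=
        RegionMove.split l m R₁ R₂
      set c : ZMod 2 := x u v with hc
      set I : Fin n → Fin n → ZMod 2 := fun p q => if (p, q) ∈ rdts Φ₁ then c else 0 with hIdef
      have hI0 : ∀ p q, ¬ Adj D'.regions p q → I p q = 0 := by
        intro p q hpq
        refine if_neg fun h => hpq ?_
        obtain ⟨w, hw, hd⟩ := mem_rdts.1 h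
        exact ⟨Φ₁, by rw [hreg']; simp, w, hw, Or.inl hd⟩
      have hIuv : I u v = 0 := if_neg (hdis₂ _ huv')
      have hIvu : I v u = c := if_pos hvu
      obtain ⟨s, hs1, hs2⟩ := ih (fun p q => x p q + I p q + I q p)
        (fun p q => by show x p q + I p q + I q p = x q p + I q p + I p q
                       rw [hx1 p q]; ring)
        (fun p q hpq => by
          show x p q + I p q + I q p = 0
          by_cases h : (p = u ∧ q = v) ∨ (p = v ∧ q = u)
          · rcases h with ⟨rfl, rfl⟩ | ⟨rfl, rfl⟩
            · rw [hIuv, hIvu, add_zero]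
              exact two_z _
            · rw [hIuv, hIvu, add_zero, hx1]
              exact two_z _
          · have h1 : ¬ Adj D'.regions p q := by rw [hadj']; tauto
            rw [hx2 p q h1, hI0 p q h1, hI0 q p fun h2 => h1 h2.symm]
            simp)
        (fun p => by
          show ∑ q, (x p q + I p q + I q p) = 0
          rw [Finset.sum_add_distrib, Finset.sum_add_distrib, hx3 p, zero_add]
          simp only [hIdef]
          rw [sum_fst c p _ hnd₁, sum_snd c p _ hnd₁, rdts_closed]
          exact two_z _)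
      refine core (D := D) (D' := D') hreg hreg' hm' hnadj x I hx1 ?_ ?_ ?_ s hs1 hs2
      · intro Φ' hΦ' e he
        exact if_neg (hdisF Φ' hΦ' e he)
      · intro Φ' hΦ' e he e' he'
        rw [Multiset.insert_eq_cons, Multiset.mem_cons, Multiset.mem_singleton] at hΦ'
        rcases hΦ' with rfl | rfl
        · show (if (e.1, e.2) ∈ rdts Φ₁ then c else 0) = (if (e'.1, e'.2) ∈ rdts Φ₁ then c else 0)
          rw [if_pos he, if_pos he']
        · show (if (e.1, e.2) ∈ rdts Φ₁ then c else 0) = (if (e'.1, e'.2) ∈ rdts Φ₁ then c else 0)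
          rw [if_neg (hdis₂ e he), if_neg (hdis₂ e' he')]
      · rw [hIuv, hIvu, zero_add]

end Pool.Agent.H85.DG.SE
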