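import Pool.Agent.H44.DG.Targets2

/-! Module TA: more colours than vertices in the separator: the graph is not Hamiltonian. -/

namespace Pool.Agent.H85.DG.TA

open Pool.Agent.H44.DG

/-- **TA.** -/
theorem pf_TA : T_TA := by
  intro n D S χ hn hE hH hcard hS hHam
  classical
  obtain ⟨a, p, hp⟩ := hHam (by rw [Fintype.card_fin]; omega)
  have hlen : p.length = n := by rw [hp.length_eq, Fintype.card_fin]
  have hstep : ∀ i, i < p.length → ∀ g, p.getVert i ∉ S → χ (p.getVert i) = g → p.getVert (i + 1) ∉ S →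
      χ (p.getVert (i + 1)) = g := by
    intro i hi g h1 h2 h3
    have hadj : D.graph.Adj (p.getVert i) (p.getVert (i + 1)) := p.adj_getVert_succ hi
    unfold Drawing.graph at hadj
    rw [SimpleGraph.fromEdgeSet_adj] at hadj
    obtain ⟨Φ, hΦ, w, hw, hd⟩ := (hE _ _ hadj.2).1 hadj.1
    have hxy : p.getVert i ∈ w ∧ p.getVert (i + 1) ∈ w := by
      rcases hd with hd | hd
      · exact ⟨hd.mem_left, hd.mem_right⟩
      · exact ⟨hd.mem_right, hd.mem_left⟩
    rw [← h2]
    exact (hH Φ hΦ w hw w hw _ hxy.1 _ hxy.2 h1 h3).symm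
  have key : ∀ g ∈ colors S χ, ∃ i, i < p.length ∧ p.getVert i ∉ S ∧ χ (p.getVert i) = g ∧
      p.getVert (i + 1) ∈ S := by
    intro g hg
    unfold colors at hg
    rw [Finset.mem_image] at hg
    obtain ⟨v, hv, hvg⟩ := hg
    rw [Finset.mem_filter] at hv
    by_contra hcon
    push Not at hcon
    have hprop : ∀ i, i < p.length → p.getVert i ∉ S ∧ χ (p.getVert i) = g →
        p.getVert (i + 1) ∉ S ∧ χ (p.getVert (i + 1)) = g := by
      intro i hi h
      have h3 := hcon i hi h.1 h.2
      exact ⟨h3, hstep i hi g h.1 h.2 h3⟩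
    have hprop2 : ∀ k i, i + k ≤ p.length → p.getVert i ∉ S ∧ χ (p.getVert i) = g →
        p.getVert (i + k) ∉ S ∧ χ (p.getVert (i + k)) = g := by
      intro k
      induction k with
      | zero => intro i _ h; exact h
      | succ k ih =>
        intro i hik h
        exact hprop (i + k) (by omega) (ih i (by omega) h)
    obtain ⟨i₀, hi₀, hi₀'⟩ := SimpleGraph.Walk.mem_support_iff_exists_getVert.1 (hp.mem_support v)
    have h0 : p.getVert i₀ ∉ S ∧ χ (p.getVert i₀) = g := by rw [hi₀]; exact ⟨hv.2, hvg⟩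
    have hend := hprop2 (p.length - i₀) i₀ (by omega) h0
    rw [show i₀ + (p.length - i₀) = p.length by omega, SimpleGraph.Walk.getVert_length] at hend
    have hstart : p.getVert 0 ∉ S ∧ χ (p.getVert 0) = g := by
      rw [SimpleGraph.Walk.getVert_zero]; exact hend
    obtain ⟨s, hs⟩ := Finset.card_pos.1 hS
    obtain ⟨j, hj, hj'⟩ := SimpleGraph.Walk.mem_support_iff_exists_getVert.1 (hp.mem_support s)
    have := hprop2 j 0 (by omega) hstart
    rw [Nat.zero_add, hj] at this
    exact this.1 hs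
  choose! f hf1 hf2 hf3 hf4 using key
  have hle : (colors S χ).card ≤ S.card := by
    refine Finset.card_le_card_of_injOn (fun g => p.getVert (f g + 1)) (fun g hg => hf4 g hg) ?_
    intro g hg g' hg' hgg
    have h1 : f g + 1 = f g' + 1 := hp.isCycle.getVert_injOn
      (show 1 ≤ f g + 1 ∧ f g + 1 ≤ p.length from ⟨by omega, hf1 g hg⟩)
      (show 1 ≤ f g' + 1 ∧ f g' + 1 ≤ p.length from ⟨by omega, hf1 g' hg'⟩) hgg
    rw [← hf3 g hg, ← hf3 g' hg', Nat.succ_injective h1]
  omega

end Pool.Agent.H85.DG.TA
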