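import Pool.Agent.H44.DG.Targets2

/-! Module TC: from two rich regions Spoiler gains one. -/

namespace Pool.Agent.H85.DG.TC

open Pool.Agent.H44.DG

variable {n : ℕ}

/-- isolated points -/
abbrev pts (P : Multiset (Fin n)) : Region (Fin n) := P.map (fun v => (↑[v] : Cycle (Fin n)))

lemma pts_cons (x : Fin n) (P : Multiset (Fin n)) : pts (x ::ₘ P) = (↑[x] : Cycle (Fin n)) ::ₘ pts P :=
  Multiset.map_cons _ _ _

lemma not_dart_single (x u v : Fin n) : ¬ IsDart (↑[x] : Cycle (Fin n)) u v := by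
  rw [isDart_coe]
  simp

lemma inR_iff {F : Multiset (Region (Fin n))} {w : Cycle (Fin n)} {R : Region (Fin n)} {x : Fin n} :
    InR ((w ::ₘ R) ::ₘ F) x ↔ x ∈ w ∨ InR {R} x ∨ InR F x := by
  rw [inR_cons, inR_sing, inR_sing]
  simp only [Multiset.mem_cons, exists_eq_or_imp]
  exact or_assoc

/-- an isolated point is adjacent to nothing -/
lemma not_adj_iso {F G : Multiset (Region (Fin n))} {R : Region (Fin n)} {x : Fin n} (hI : Iso F)
    (hF : F = ((↑[x] : Cycle (Fin n)) ::ₘ R) ::ₘ G) (u : Fin n) : ¬ Adj F u x := by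
  obtain ⟨h1, h2⟩ := hI _ G x R hF rfl
  rintro ⟨Φ, hΦ, w, hw, hd⟩
  have hx : x ∈ w := by
    rcases hd with hd | hd
    · exact hd.mem_right
    · exact hd.mem_left
  rw [hF, Multiset.mem_cons] at hΦ
  rcases hΦ with rfl | hΦ
  · rw [Multiset.mem_cons] at hw
    rcases hw with rfl | hw
    · rcases hd with hd | hd <;> exact not_dart_single _ _ _ hd
    · exact h2 (inR_sing.2 ⟨w, hw, hx⟩)
  · exact h1 ⟨Φ, hΦ, w, hw, hx⟩

lemma draw_join {D : Drawing (Fin n)} {u x : Fin n} {l : List (Fin n)} {R : Region (Fin n)}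
    {G : Multiset (Region (Fin n))} (hE : EInv D) (hI : Iso D.regions) (hux : u ≠ x)
    (hD : D.regions = ((↑(u :: l) : Cycle (Fin n)) ::ₘ (↑[x] : Cycle (Fin n)) ::ₘ R) ::ₘ G) :
    Draw D ⟨insert s(u, x) D.edges, {((↑(joinWalk u l x []) : Cycle (Fin n)) ::ₘ R)} + G⟩ := by
  refine ⟨u, x, hux, ?_, rfl, _, _, G, hD, rfl, RegionMove.join l [] R⟩
  rw [hE u x hux]
  refine not_adj_iso (R := (↑(u :: l) : Cycle (Fin n)) ::ₘ R) (G := G) hI ?_ u
  rw [hD, Multiset.cons_swap]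

lemma draw_split {D : Drawing (Fin n)} {u v : Fin n} {l m : List (Fin n)} {R₁ R₂ : Region (Fin n)}
    {G : Multiset (Region (Fin n))} (huv : u ≠ v) (he : s(u, v) ∉ D.edges)
    (hD : D.regions = ((↑(u :: (l ++ v :: m)) : Cycle (Fin n)) ::ₘ (R₁ + R₂)) ::ₘ G) :
    Draw D ⟨insert s(u, v) D.edges,
      {(↑(u :: (l ++ [v])) : Cycle (Fin n)) ::ₘ R₁, (↑(v :: (m ++ [u])) : Cycle (Fin n)) ::ₘ R₂} + G⟩ :=
  ⟨u, v, huv, he, rfl, _, _, G, hD, rfl, RegionMove.split l m R₁ R₂⟩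

lemma iso_out {F G : Multiset (Region (Fin n))} {w : Cycle (Fin n)} {Q : Multiset (Fin n)}
    {J : Region (Fin n)} (hI : Iso F) (hF : F = (w ::ₘ (pts Q + J)) ::ₘ G) {v : Fin n} (hv : v ∈ Q) :
    ¬ InR G v ∧ v ∉ w := by
  obtain ⟨Q', rfl⟩ := Multiset.exists_cons_of_mem hv
  have h := hI _ G v (w ::ₘ (pts Q' + J)) hF (by
    rw [pts_cons, Multiset.cons_add, Multiset.cons_swap])
  refine ⟨h.1, fun hvw => h.2 (inR_sing.2 ⟨w, Multiset.mem_cons_self _ _, hvw⟩)⟩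

lemma split_card (Q : Multiset (Fin n)) (k : ℕ) (hk : k ≤ Q.card) :
    ∃ A B : Multiset (Fin n), Q = A + B ∧ A.card = k ∧ B.card = Q.card - k := by
  induction Q using Quotient.inductionOn with
  | _ l =>
    refine ⟨(l.take k : List (Fin n)), (l.drop k : List (Fin n)), ?_, ?_, ?_⟩
    · rw [Multiset.coe_add, List.take_append_drop]
      rfl
    · rw [Multiset.coe_card, List.length_take]
      have : k ≤ l.length := hk
      omega
    · rw [Multiset.coe_card, List.length_drop]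
      rfl

lemma two {α : Type*} {A B Φ : α} {G F : Multiset α} (h : A ::ₘ B ::ₘ G = Φ ::ₘ F) :
    (∃ F', F = A ::ₘ F' ∧ B ::ₘ G = Φ ::ₘ F') ∨ (∃ F', F = B ::ₘ F' ∧ A ::ₘ G = Φ ::ₘ F') := by
  rw [Multiset.cons_eq_cons] at h
  rcases h with ⟨h1, h2⟩ | ⟨_, cs, h1, h2⟩
  · exact Or.inr ⟨G, h2.symm, by rw [h1]⟩
  · exact Or.inl ⟨cs, h2, h1⟩

lemma three {α : Type*} {A B C Φ : α} {G F : Multiset α} (h : A ::ₘ B ::ₘ C ::ₘ G = Φ ::ₘ F) :
    (∃ F', F = A ::ₘ B ::ₘ F') ∨ (∃ F', F = A ::ₘ C ::ₘ F') ∨ (∃ F', F = B ::ₘ C ::ₘ F') := by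
  rw [Multiset.cons_eq_cons] at h
  rcases h with ⟨h1, h2⟩ | ⟨_, cs, h1, h2⟩
  · exact Or.inr (Or.inr ⟨G, h2.symm⟩)
  · rcases two h1 with ⟨F', h3, h4⟩ | ⟨F', h3, h4⟩
    · exact Or.inl ⟨F', by rw [h2, h3]⟩
    · exact Or.inr (Or.inl ⟨F', by rw [h2, h3]⟩)

/-- the position in the middle of the manoeuvre -/
def Mid (d m : ℕ) (D : Drawing (Fin n)) : Prop :=
  EInv D ∧ Iso D.regions ∧ ∃ (S : Finset (Fin n)) (χ : Fin n → ℕ) (a b c x : Fin n) (Q : Multiset (Fin n))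
    (J : Region (Fin n)) (H : Multiset (Region (Fin n))),
    D.regions = ((↑[a, x, a, b, c] : Cycle (Fin n)) ::ₘ (pts Q + J)) ::ₘ H ∧
    Hom D.regions S χ ∧ S.card + 1 ≤ (colors S χ).card + (d + 1) ∧ a ∈ S ∧ b ∈ S ∧ c ∈ S ∧
    a ≠ b ∧ b ≠ c ∧ c ≠ a ∧ x ∉ S ∧ 3 * m + 6 ≤ Q.card ∧ (∀ v ∈ Q, v ∉ S) ∧ ¬ InR H x ∧
    ¬ InR {pts Q + J} x

lemma mem_pts {Q : Multiset (Fin n)} {w : Cycle (Fin n)} (h : w ∈ pts Q) : ∃ v ∈ Q, w = (↑[v] : Cycle (Fin n)) := by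
  obtain ⟨v, hv, rfl⟩ := Multiset.mem_map.1 h
  exact ⟨v, hv, rfl⟩

lemma inR_pts {Q : Multiset (Fin n)} {J : Region (Fin n)} {v : Fin n} (hv : v ∈ Q) : InR {pts Q + J} v :=
  inR_sing.2 ⟨(↑[v] : Cycle (Fin n)), Multiset.mem_add.2 (Or.inl (Multiset.mem_map.2 ⟨v, hv, rfl⟩)), by simp⟩

/-- recolouring -/
lemma recolor {S : Finset (Fin n)} {χ : Fin n → ℕ} {x p q r s : Fin n} {A : Region (Fin n)}
    {Q₂ Q₃ : Multiset (Fin n)} {F H : Multiset (Region (Fin n))} (hI : Iso F)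
    (hF : F = A ::ₘ ((↑[p, q, x] : Cycle (Fin n)) ::ₘ (pts Q₂ + 0)) ::ₘ
      ((↑[x, r, s] : Cycle (Fin n)) ::ₘ (pts Q₃ + 0)) ::ₘ H)
    (hp : p ∈ S) (hq : q ∈ S) (hr : r ∈ S) (hs : s ∈ S) (hH : Hom F S χ) (f₁ f₂ : ℕ) :
    Hom F (insert x S) (fun v => if v ∈ Q₂ then f₁ else if v ∈ Q₃ then f₂ else χ v) := by
  have h2 : ∀ v ∈ Q₂, ¬ InR (A ::ₘ ((↑[x, r, s] : Cycle (Fin n)) ::ₘ (pts Q₃ + 0)) ::ₘ H) v := by
    intro v hv
    exact (iso_out (G := A ::ₘ ((↑[x, r, s] : Cycle (Fin n)) ::ₘ (pts Q₃ + 0)) ::ₘ H) hI (by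
      rw [hF, Multiset.cons_swap]) hv).1
  have h3 : ∀ v ∈ Q₃, ¬ InR (A ::ₘ ((↑[p, q, x] : Cycle (Fin n)) ::ₘ (pts Q₂ + 0)) ::ₘ H) v := by
    intro v hv
    exact (iso_out (G := A ::ₘ ((↑[p, q, x] : Cycle (Fin n)) ::ₘ (pts Q₂ + 0)) ::ₘ H) hI (by
      rw [hF, Multiset.cons_swap (_ ::ₘ (pts Q₂ + 0)), Multiset.cons_swap A]) hv).1
  have hold : ∀ Φ ∈ F, (Φ = A ∨ Φ ∈ H) → ∀ w ∈ Φ, ∀ y ∈ w, y ∉ Q₂ ∧ y ∉ Q₃ := by
    intro Φ hΦ hΦ' w hw y hy
    constructor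
    · intro hy2
      refine h2 y hy2 ⟨Φ, ?_, w, hw, hy⟩
      rcases hΦ' with rfl | h
      · exact Multiset.mem_cons_self _ _
      · exact Multiset.mem_cons_of_mem (Multiset.mem_cons_of_mem h)
    · intro hy3
      refine h3 y hy3 ⟨Φ, ?_, w, hw, hy⟩
      rcases hΦ' with rfl | h
      · exact Multiset.mem_cons_self _ _
      · exact Multiset.mem_cons_of_mem (Multiset.mem_cons_of_mem h)
  intro Φ hΦ w hw w' hw' y hy z hz hyS hzS
  rw [Finset.mem_insert, not_or] at hyS hzS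
  have hΦ2 := hΦ
  rw [hF, Multiset.mem_cons, Multiset.mem_cons, Multiset.mem_cons] at hΦ2
  have hmain : (Φ = A ∨ Φ ∈ H) → (if y ∈ Q₂ then f₁ else if y ∈ Q₃ then f₂ else χ y)
      = (if z ∈ Q₂ then f₁ else if z ∈ Q₃ then f₂ else χ z) := by
    intro h
    have hy' := hold Φ hΦ h w hw y hy
    have hz' := hold Φ hΦ h w' hw' z hz
    rw [if_neg hy'.1, if_neg hy'.2, if_neg hz'.1, if_neg hz'.2]
    exact hH Φ hΦ w hw w' hw' y hy z hz hyS.2 hzS.2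
  rcases hΦ2 with h | h | h | h
  · exact hmain (Or.inl h)
  · have hgen : ∀ (w : Cycle (Fin n)), w ∈ Φ → ∀ y ∈ w, y ≠ x → y ∉ S → y ∈ Q₂ := by
      intro w hw y hy hyx hyS
      rw [h, add_zero, Multiset.mem_cons] at hw
      rcases hw with rfl | hw
      · simp only [Cycle.mem_coe_iff, List.mem_cons, List.not_mem_nil, or_false] at hy
        rcases hy with rfl | rfl | rfl
        · exact absurd hp hyS
        · exact absurd hq hyS
        · exact absurd rfl hyx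
      · obtain ⟨v, hv, rfl⟩ := mem_pts hw
        simp only [Cycle.mem_coe_iff, List.mem_cons, List.not_mem_nil, or_false] at hy
        rw [hy]; exact hv
    show (if y ∈ Q₂ then f₁ else if y ∈ Q₃ then f₂ else χ y)
      = (if z ∈ Q₂ then f₁ else if z ∈ Q₃ then f₂ else χ z)
    rw [if_pos (hgen w hw y hy hyS.1 hyS.2), if_pos (hgen w' hw' z hz hzS.1 hzS.2)]
  · have hgen : ∀ (w : Cycle (Fin n)), w ∈ Φ → ∀ y ∈ w, y ≠ x → y ∉ S → y ∈ Q₃ ∧ y ∉ Q₂ := by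
      intro w hw y hy hyx hyS
      have hnot : y ∉ Q₂ := by
        intro hy2
        refine h2 y hy2 ⟨Φ, ?_, w, hw, hy⟩
        rw [h]
        exact Multiset.mem_cons_of_mem (Multiset.mem_cons_self _ _)
      refine ⟨?_, hnot⟩
      rw [h, add_zero, Multiset.mem_cons] at hw
      rcases hw with rfl | hw
      · simp only [Cycle.mem_coe_iff, List.mem_cons, List.not_mem_nil, or_false] at hy
        rcases hy with rfl | rfl | rfl
        · exact absurd rfl hyx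
        · exact absurd hr hyS
        · exact absurd hs hyS
      · obtain ⟨v, hv, rfl⟩ := mem_pts hw
        simp only [Cycle.mem_coe_iff, List.mem_cons, List.not_mem_nil, or_false] at hy
        rw [hy]; exact hv
    have hy' := hgen w hw y hy hyS.1 hyS.2
    have hz' := hgen w' hw' z hz hzS.1 hzS.2
    show (if y ∈ Q₂ then f₁ else if y ∈ Q₃ then f₂ else χ y)
      = (if z ∈ Q₂ then f₁ else if z ∈ Q₃ then f₂ else χ z)
    rw [if_neg hy'.2, if_pos hy'.1, if_neg hz'.2, if_pos hz'.1]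
  · exact hmain (Or.inr h)

/-- counting colours after the recolouring -/
lemma count {S : Finset (Fin n)} {χ : Fin n → ℕ} {x v₁ v₂ v₃ : Fin n} {Q₂ Q₃ : Multiset (Fin n)}
    (hx : χ x = χ v₁) (h2 : ∀ v ∈ Q₂, χ v = χ v₁) (h3 : ∀ v ∈ Q₃, χ v = χ v₁) (hv1 : v₁ ∉ S) (hv1x : v₁ ≠ x)
    (h12 : v₁ ∉ Q₂) (h13 : v₁ ∉ Q₃) (hv2 : v₂ ∈ Q₂) (hv2S : v₂ ∉ S) (hv2x : v₂ ≠ x)
    (hv3 : v₃ ∈ Q₃) (hv3S : v₃ ∉ S) (hv3x : v₃ ≠ x) (h32 : v₃ ∉ Q₂) :
    (colors S χ).card + 2 ≤ (colors (insert x S) (fun v => if v ∈ Q₂ then Finset.univ.sup χ + 1 else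
      if v ∈ Q₃ then Finset.univ.sup χ + 2 else χ v)).card := by
  set f := Finset.univ.sup χ with hf
  have hfle : ∀ v, χ v ≤ f := fun v => Finset.le_sup (f := χ) (Finset.mem_univ v)
  have hc : ∀ g ∈ colors S χ, g ≤ f := by
    intro g hg
    unfold colors at hg
    rw [Finset.mem_image] at hg
    obtain ⟨v, _, rfl⟩ := hg
    exact hfle v
  have hsub : insert (f + 1) (insert (f + 2) (colors S χ)) ⊆ colors (insert x S) (fun v => if v ∈ Q₂ then f + 1 else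
      if v ∈ Q₃ then f + 2 else χ v) := by
    intro g hg
    rw [Finset.mem_insert, Finset.mem_insert] at hg
    unfold colors
    rw [Finset.mem_image]
    rcases hg with rfl | rfl | hg
    · refine ⟨v₂, ?_, by simp only [if_pos hv2]⟩
      rw [Finset.mem_filter, Finset.mem_insert, not_or]
      exact ⟨Finset.mem_univ _, hv2x, hv2S⟩
    · refine ⟨v₃, ?_, by simp only [if_pos hv3, if_neg h32]⟩
      rw [Finset.mem_filter, Finset.mem_insert, not_or]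
      exact ⟨Finset.mem_univ _, hv3x, hv3S⟩
    · unfold colors at hg
      rw [Finset.mem_image] at hg
      obtain ⟨v, hv, rfl⟩ := hg
      rw [Finset.mem_filter] at hv
      by_cases hbad : v = x ∨ v ∈ Q₂ ∨ v ∈ Q₃
      · refine ⟨v₁, ?_, ?_⟩
        · rw [Finset.mem_filter, Finset.mem_insert, not_or]
          exact ⟨Finset.mem_univ _, hv1x, hv1⟩
        · simp only [if_neg h12, if_neg h13]
          rcases hbad with rfl | h | h
          · exact hx.symm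
          · exact (h2 v h).symm
          · exact (h3 v h).symm
      · rw [not_or, not_or] at hbad
        refine ⟨v, ?_, ?_⟩
        · rw [Finset.mem_filter, Finset.mem_insert, not_or]
          exact ⟨Finset.mem_univ _, hbad.1, hv.2⟩
        · simp only [if_neg hbad.2.1, if_neg hbad.2.2]
  have hcard : (insert (f + 1) (insert (f + 2) (colors S χ))).card = (colors S χ).card + 2 := by
    rw [Finset.card_insert_of_notMem, Finset.card_insert_of_notMem]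
    · intro h; have := hc _ h; omega
    · rw [Finset.mem_insert, not_or]
      refine ⟨by omega, fun h => ?_⟩
      have := hc _ h; omega
  rw [← hcard]
  exact Finset.card_le_card hsub

/-- the second half of the manoeuvre -/
lemma mid_win (hTB : T_TB) (d m : ℕ)
    (hwin : ∀ D : Drawing (Fin n), Q2 d m D → Wins 1 2 .spoiler NotHam (.spoiler, 2) D)
    (D : Drawing (Fin n)) (hM : Mid d m D) : Wins 1 2 .spoiler NotHam (.spoiler, 2) D := by
  obtain ⟨hE, hI, S, χ, a, b, c, x, Q, J, H, hD, hHom, hcard, ha, hb, hc, hab, hbc, hca, hx, hQ, hQS, hxH, hxQ⟩ := hM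
  have hxa : x ≠ a := fun h => hx (h ▸ ha)
  have hxb : x ≠ b := fun h => hx (h ▸ hb)
  have hxc : x ≠ c := fun h => hx (h ▸ hc)
  obtain ⟨Q₁, Q', rfl, hQ₁, hQ'⟩ := split_card Q (m + 2) (by omega)
  obtain ⟨Q₂, Q₃, rfl, hQ₂, hQ₃⟩ := split_card Q' (m + 2) (by omega)
  rw [Multiset.card_add, Multiset.card_add] at hQ
  -- no edges from `x` to `b`, `c`
  have hnadj : ∀ y, y = b ∨ y = c → ¬ Adj D.regions x y := by
    rintro y hy ⟨Φ, hΦ, w, hw, hd⟩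
    have hxw : x ∈ w := by
      rcases hd with hd | hd
      · exact hd.mem_left
      · exact hd.mem_right
    rw [hD, Multiset.mem_cons] at hΦ
    rcases hΦ with rfl | hΦ
    · rw [Multiset.mem_cons] at hw
      rcases hw with rfl | hw
      · rw [isDart_coe, isDart_coe] at hd
        simp only [cprs_cons_cons, List.cons_append, List.nil_append, prs_cons_cons, prs_single,
          List.mem_cons, Prod.mk.injEq, List.not_mem_nil, or_false] at hd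
        rcases hy with rfl | rfl
        · rcases hd with (⟨h1, h2⟩ | ⟨h1, h2⟩ | ⟨h1, h2⟩ | ⟨h1, h2⟩ | ⟨h1, h2⟩) |
            (⟨h1, h2⟩ | ⟨h1, h2⟩ | ⟨h1, h2⟩ | ⟨h1, h2⟩ | ⟨h1, h2⟩) <;>
          first
            | exact hxa h1 | exact hxb h1 | exact hxc h1 | exact hxa h2 | exact hxb h2 | exact hxc h2
            | exact hab h1 | exact hab h1.symm | exact hab h2 | exact hab h2.symm
        · rcases hd with (⟨h1, h2⟩ | ⟨h1, h2⟩ | ⟨h1, h2⟩ | ⟨h1, h2⟩ | ⟨h1, h2⟩) |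
            (⟨h1, h2⟩ | ⟨h1, h2⟩ | ⟨h1, h2⟩ | ⟨h1, h2⟩ | ⟨h1, h2⟩) <;>
          first
            | exact hxa h1 | exact hxb h1 | exact hxc h1 | exact hxa h2 | exact hxb h2 | exact hxc h2
            | exact hca h1 | exact hca h1.symm | exact hca h2 | exact hca h2.symm
      · exact hxQ (inR_sing.2 ⟨w, hw, hxw⟩)
    · exact hxH ⟨Φ, hΦ, w, hw, hxw⟩
  have heb : s(x, b) ∉ D.edges := by
    rw [hE x b hxb]; exact hnadj b (Or.inl rfl)
  have hec : s(x, c) ∉ D.edges := by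
    rw [hE x c hxc]; exact hnadj c (Or.inr rfl)
  -- first edge `x b`
  have hD' : D.regions = ((↑(x :: ([a] ++ b :: [c, a])) : Cycle (Fin n)) ::ₘ
      ((pts Q₁ + J) + (pts Q₂ + pts Q₃))) ::ₘ H := by
    rw [hD]
    congr 1
    congr 1
    · exact coe_rot [a] [x, a, b, c]
    · simp only [pts, Multiset.map_add]
      abel
  have h34 := draw_split hxb heb hD'
  set D4 : Drawing (Fin n) := ⟨insert s(x, b) D.edges, {(↑(x :: ([a] ++ [b])) : Cycle (Fin n)) ::ₘ (pts Q₁ + J),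
    (↑(b :: ([c, a] ++ [x])) : Cycle (Fin n)) ::ₘ (pts Q₂ + pts Q₃)} + H⟩ with hD4
  obtain ⟨hE4, hI4, hH4⟩ := hTB n D D4 hE h34
  have hI4 := hI4 hI
  have hH4 := hH4 S χ hHom
  have hec4 : s(c, x) ∉ D4.edges := by
    show s(c, x) ∉ insert s(x, b) D.edges
    rw [Set.mem_insert_iff, not_or]
    constructor
    · intro h
      rw [Sym2.eq_iff] at h
      rcases h with ⟨h1, _⟩ | ⟨h1, _⟩
      · exact hxc h1.symm
      · exact hbc h1.symm
    · rw [Sym2.eq_swap]; exact hec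
  have hD4' : D4.regions = ((↑(c :: ([a] ++ x :: [b])) : Cycle (Fin n)) ::ₘ (pts Q₂ + pts Q₃)) ::ₘ
      (((↑[x, a, b] : Cycle (Fin n)) ::ₘ (pts Q₁ + J)) ::ₘ H) := by
    rw [hD4]
    show ({(↑(x :: ([a] ++ [b])) : Cycle (Fin n)) ::ₘ (pts Q₁ + J),
      (↑(b :: ([c, a] ++ [x])) : Cycle (Fin n)) ::ₘ (pts Q₂ + pts Q₃)} : Multiset (Region (Fin n))) + H = _
    have e : (↑(b :: ([c, a] ++ [x])) : Cycle (Fin n)) = ↑(c :: ([a] ++ x :: [b])) := coe_rot [b] [c, a, x]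
    rw [e, Multiset.insert_eq_cons, Multiset.cons_add, Multiset.singleton_add, Multiset.cons_swap]
    rfl
  have h45 := draw_split (Ne.symm hxc) hec4 hD4'
  set D5 : Drawing (Fin n) := ⟨insert s(c, x) D4.edges, {(↑(c :: ([a] ++ [x])) : Cycle (Fin n)) ::ₘ pts Q₂,
    (↑(x :: ([b] ++ [c])) : Cycle (Fin n)) ::ₘ pts Q₃} + (((↑[x, a, b] : Cycle (Fin n)) ::ₘ (pts Q₁ + J)) ::ₘ H)⟩
    with hD5
  obtain ⟨hE5, hI5, hH5⟩ := hTB n D4 D5 hE4 h45
  have hI5 := hI5 hI4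
  have hH5 := hH5 S χ hH4
  have hD5' : D5.regions = ((↑[x, a, b] : Cycle (Fin n)) ::ₘ (pts Q₁ + J)) ::ₘ
      ((↑[c, a, x] : Cycle (Fin n)) ::ₘ (pts Q₂ + 0)) ::ₘ ((↑[x, b, c] : Cycle (Fin n)) ::ₘ (pts Q₃ + 0)) ::ₘ H := by
    rw [hD5]
    show ({(↑[c, a, x] : Cycle (Fin n)) ::ₘ pts Q₂, (↑[x, b, c] : Cycle (Fin n)) ::ₘ pts Q₃} :
      Multiset (Region (Fin n))) + (((↑[x, a, b] : Cycle (Fin n)) ::ₘ (pts Q₁ + J)) ::ₘ H) = _
    rw [add_zero, add_zero, Multiset.add_cons, Multiset.insert_eq_cons, Multiset.cons_add, Multiset.singleton_add]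
  -- isolated points
  have hQ₁pos : 0 < Q₁.card := by omega
  have hQ₂pos : 0 < Q₂.card := by omega
  have hQ₃pos : 0 < Q₃.card := by omega
  obtain ⟨v₁, hv₁⟩ := Multiset.card_pos_iff_exists_mem.1 hQ₁pos
  obtain ⟨v₂, hv₂⟩ := Multiset.card_pos_iff_exists_mem.1 hQ₂pos
  obtain ⟨v₃, hv₃⟩ := Multiset.card_pos_iff_exists_mem.1 hQ₃pos
  have hin : ∀ v, v ∈ Q₁ ∨ v ∈ Q₂ ∨ v ∈ Q₃ → v ∈ Q₁ + (Q₂ + Q₃) := by
    intro v hv
    rw [Multiset.mem_add, Multiset.mem_add]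
    exact hv
  have hnx : ∀ v ∈ Q₁ + (Q₂ + Q₃), v ≠ x := by
    rintro v hv rfl
    exact hxQ (inR_pts hv)
  have hcol : ∀ v ∈ Q₁ + (Q₂ + Q₃), χ v = χ v₁ := by
    intro v hv
    have hmem : ∀ v ∈ Q₁ + (Q₂ + Q₃), (↑[v] : Cycle (Fin n)) ∈
        ((↑[a, x, a, b, c] : Cycle (Fin n)) ::ₘ (pts (Q₁ + (Q₂ + Q₃)) + J)) := fun v hv =>
      Multiset.mem_cons_of_mem (Multiset.mem_add.2 (Or.inl (Multiset.mem_map.2 ⟨v, hv, rfl⟩)))
    exact hHom _ (by rw [hD]; exact Multiset.mem_cons_self _ _) _ (hmem v hv) _ (hmem v₁ (hin v₁ (Or.inl hv₁)))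
      v (by simp) v₁ (by simp) (hQS v hv) (hQS v₁ (hin v₁ (Or.inl hv₁)))
  have hcolx : χ x = χ v₁ := by
    refine hHom _ (by rw [hD]; exact Multiset.mem_cons_self _ _) (↑[a, x, a, b, c] : Cycle (Fin n))
      (Multiset.mem_cons_self _ _) (↑[v₁] : Cycle (Fin n))
      (Multiset.mem_cons_of_mem (Multiset.mem_add.2 (Or.inl (Multiset.mem_map.2 ⟨v₁, hin v₁ (Or.inl hv₁), rfl⟩))))
      x (by simp) v₁ (by simp) hx (hQS v₁ (hin v₁ (Or.inl hv₁)))
  have hA : ∀ v ∈ Q₁, ¬ InR (((↑[c, a, x] : Cycle (Fin n)) ::ₘ (pts Q₂ + 0)) ::ₘ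
      ((↑[x, b, c] : Cycle (Fin n)) ::ₘ (pts Q₃ + 0)) ::ₘ H) v := fun v hv => (iso_out hI5 hD5' hv).1
  have h12 : v₁ ∉ Q₂ := by
    intro h
    refine hA v₁ hv₁ (inR_iff.2 (Or.inr (Or.inl (inR_pts h))))
  have h13 : v₁ ∉ Q₃ := by
    intro h
    refine hA v₁ hv₁ ?_
    rw [inR_cons]
    exact Or.inr (inR_iff.2 (Or.inr (Or.inl (inR_pts h))))
  have h32 : v₃ ∉ Q₂ := by
    intro h
    have := (iso_out (w := (↑[c, a, x] : Cycle (Fin n))) (Q := Q₂) (J := 0)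
      (G := ((↑[x, a, b] : Cycle (Fin n)) ::ₘ (pts Q₁ + J)) ::ₘ
        ((↑[x, b, c] : Cycle (Fin n)) ::ₘ (pts Q₃ + 0)) ::ₘ H) hI5 (by
      rw [hD5', Multiset.cons_swap]) h).1
    refine this ?_
    rw [inR_cons]
    exact Or.inr (inR_iff.2 (Or.inr (Or.inl (inR_pts hv₃))))
  have hrec := recolor hI5 hD5' hc ha hb hc hH5 (Finset.univ.sup χ + 1) (Finset.univ.sup χ + 2)
  have hcnt := count (S := S) (χ := χ) (x := x) (v₁ := v₁) (v₂ := v₂) (v₃ := v₃) (Q₂ := Q₂) (Q₃ := Q₃) hcolx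
    (fun v hv => hcol v (hin v (Or.inr (Or.inl hv)))) (fun v hv => hcol v (hin v (Or.inr (Or.inr hv))))
    (hQS v₁ (hin v₁ (Or.inl hv₁))) (hnx v₁ (hin v₁ (Or.inl hv₁))) h12 h13 hv₂
    (hQS v₂ (hin v₂ (Or.inr (Or.inl hv₂)))) (hnx v₂ (hin v₂ (Or.inr (Or.inl hv₂)))) hv₃
    (hQS v₃ (hin v₃ (Or.inr (Or.inr hv₃)))) (hnx v₃ (hin v₃ (Or.inr (Or.inr hv₃)))) h32
  set χ' : Fin n → ℕ := fun v => if v ∈ Q₂ then Finset.univ.sup χ + 1 else
      if v ∈ Q₃ then Finset.univ.sup χ + 2 else χ v with hχ'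
  have hx' : x ∈ insert x S := Finset.mem_insert_self _ _
  have ha' : a ∈ insert x S := Finset.mem_insert_of_mem ha
  have hb' : b ∈ insert x S := Finset.mem_insert_of_mem hb
  have hc' : c ∈ insert x S := Finset.mem_insert_of_mem hc
  have hnS : ∀ v ∈ Q₁ + (Q₂ + Q₃), v ∉ insert x S := by
    intro v hv
    rw [Finset.mem_insert, not_or]
    exact ⟨hnx v hv, hQS v hv⟩
  have hRA : Rich m (insert x S) ((↑[x, a, b] : Cycle (Fin n)) ::ₘ (pts Q₁ + J)) :=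
    ⟨x, a, b, Q₁, J, hx', ha', hb', hxa, hab, Ne.symm hxb, rfl, by omega, fun v hv => hnS v (hin v (Or.inl hv))⟩
  have hRB : Rich m (insert x S) ((↑[c, a, x] : Cycle (Fin n)) ::ₘ (pts Q₂ + 0)) :=
    ⟨c, a, x, Q₂, 0, hc', ha', hx', hca, Ne.symm hxa, hxc, rfl, by omega,
      fun v hv => hnS v (hin v (Or.inr (Or.inl hv)))⟩
  have hRC : Rich m (insert x S) ((↑[x, b, c] : Cycle (Fin n)) ::ₘ (pts Q₃ + 0)) :=
    ⟨x, b, c, Q₃, 0, hx', hb', hc', hxb, hbc, Ne.symm hxc, rfl, by omega,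
      fun v hv => hnS v (hin v (Or.inr (Or.inr hv)))⟩
  have hScard : (insert x S).card = S.card + 1 := Finset.card_insert_of_notMem hx
  -- the strategy
  refine Wins.own 1 D D4 h34 ?_
  show Wins 1 2 .spoiler NotHam (.spoiler, 1) D4
  refine Wins.own 0 D4 D5 h45 ?_
  show Wins 1 2 .spoiler NotHam (.builder, 1) D5
  refine Wins.opp .builder (by decide) 0 D5 ?_ ?_
  · obtain ⟨Q₂', hQ₂'⟩ := Multiset.exists_cons_of_mem hv₂
    refine ⟨_, draw_join (u := c) (x := v₂) (l := [a, x]) (R := pts Q₂' + 0)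
      (G := ((↑[x, a, b] : Cycle (Fin n)) ::ₘ (pts Q₁ + J)) ::ₘ
        ((↑[x, b, c] : Cycle (Fin n)) ::ₘ (pts Q₃ + 0)) ::ₘ H) hE5 hI5 ?_ ?_⟩
    · rintro rfl
      exact hQS c (hin c (Or.inr (Or.inl hv₂))) hc
    · rw [hD5', Multiset.cons_swap, hQ₂', pts_cons, Multiset.cons_add]
  · intro D6 h56
    show Wins 1 2 .spoiler NotHam (.spoiler, 2) D6
    apply hwin
    obtain ⟨hE6, hI6, hH6⟩ := hTB n D5 D6 hE5 h56
    have hI6 := hI6 hI5
    have hH6 := hH6 _ _ hrec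
    obtain ⟨u, v, huv, he, hedges, Φ, Ψ, F, hreg, hreg', hmove⟩ := h56
    rw [hD5'] at hreg
    have hfin : (insert x S).card + 1 ≤ (colors (insert x S) χ').card + d := by
      rw [hScard]; omega
    refine ⟨hE6, hI6, insert x S, χ', ?_⟩
    rcases three hreg with ⟨F', hF'⟩ | ⟨F', hF'⟩ | ⟨F', hF'⟩
    · exact ⟨_, _, Ψ + F', by rw [hreg', hF', Multiset.add_cons, Multiset.add_cons], hH6, hfin, hRA, hRB⟩
    · exact ⟨_, _, Ψ + F', by rw [hreg', hF', Multiset.add_cons, Multiset.add_cons], hH6, hfin, hRA, hRC⟩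
    · exact ⟨_, _, Ψ + F', by rw [hreg', hF', Multiset.add_cons, Multiset.add_cons], hH6, hfin, hRB, hRC⟩

/-- after the answer of Builder -/
lemma to_mid (d m : ℕ) {D' : Drawing (Fin n)} (hE' : EInv D') (hI' : Iso D'.regions)
    {S : Finset (Fin n)} {χ : Fin n → ℕ} (hH' : Hom D'.regions S χ)
    (hcard : S.card + 1 ≤ (colors S χ).card + (d + 1)) {a b c x : Fin n} {Q : Multiset (Fin n)}
    {J : Region (Fin n)} {u v : Fin n} {Φ : Region (Fin n)} {Ψ F F' Y : Multiset (Region (Fin n))}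
    (hF : F = ((↑[a, x, a, b, c] : Cycle (Fin n)) ::ₘ (pts Q + J)) ::ₘ F') (hY : Y = Φ ::ₘ F')
    (hmove : RegionMove u v Φ Ψ) (hreg' : D'.regions = Ψ + F) (ha : a ∈ S) (hb : b ∈ S) (hc : c ∈ S)
    (hab : a ≠ b) (hbc : b ≠ c) (hca : c ≠ a) (hx : x ∉ S) (hQ : 3 * m + 6 ≤ Q.card) (hQS : ∀ v ∈ Q, v ∉ S)
    (hxY : ¬ InR Y x) (hxQ : ¬ InR {pts Q + J} x) : Mid d m D' := by
  refine ⟨hE', hI', S, χ, a, b, c, x, Q, J, Ψ + F', ?_, hH', hcard, ha, hb, hc, hab, hbc, hca, hx, hQ, hQS, ?_, hxQ⟩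
  · rw [hreg', hF, Multiset.add_cons]
  · rw [inR_add, hmove.corner, ← inR_cons, ← hY]
    exact hxY

/-- **TC.** -/
theorem pf_TC (hTB : T_TB) : T_TC := by
  intro n d m hn hwin D hQ
  obtain ⟨hE, hI, S, χ, Φ₁, Φ₂, G, hD, hHom, hcard, hR₁, hR₂⟩ := hQ
  obtain ⟨a, b, c, P, J, ha, hb, hc, hab, hbc, hca, rfl, hP, hPS⟩ := hR₁
  obtain ⟨a', b', c', P', J', ha', hb', hc', hab', hbc', hca', rfl, hP', hPS'⟩ := hR₂
  obtain ⟨x, hxP⟩ := Multiset.card_pos_iff_exists_mem.1 (show 0 < P.card by omega)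
  obtain ⟨Q, rfl⟩ := Multiset.exists_cons_of_mem hxP
  obtain ⟨x', hxP'⟩ := Multiset.card_pos_iff_exists_mem.1 (show 0 < P'.card by omega)
  obtain ⟨Q', rfl⟩ := Multiset.exists_cons_of_mem hxP'
  rw [Multiset.card_cons] at hP hP'
  have hx : x ∉ S := hPS x hxP
  have hx' : x' ∉ S := hPS' x' hxP'
  have hQS : ∀ v ∈ Q, v ∉ S := fun v hv => hPS v (Multiset.mem_cons_of_mem hv)
  have hQS' : ∀ v ∈ Q', v ∉ S := fun v hv => hPS' v (Multiset.mem_cons_of_mem hv)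
  -- first edge
  have hDa : D.regions = ((↑(a :: [b, c]) : Cycle (Fin n)) ::ₘ (↑[x] : Cycle (Fin n)) ::ₘ (pts Q + J)) ::ₘ
      (((↑[a', b', c'] : Cycle (Fin n)) ::ₘ (pts (x' ::ₘ Q') + J')) ::ₘ G) := by
    rw [hD, Multiset.map_cons, Multiset.cons_add]
  have hisox := hI _ (((↑[a', b', c'] : Cycle (Fin n)) ::ₘ (pts (x' ::ₘ Q') + J')) ::ₘ G) x
    ((↑[a, b, c] : Cycle (Fin n)) ::ₘ (pts Q + J)) hDa (by rw [Multiset.cons_swap])
  have hxQ : ¬ InR {pts Q + J} x := by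
    intro h
    refine hisox.2 ?_
    obtain ⟨w, hw, hxw⟩ := inR_sing.1 h
    exact inR_sing.2 ⟨w, Multiset.mem_cons_of_mem hw, hxw⟩
  have h01 := draw_join hE hI (show a ≠ x from fun h => hx (h ▸ ha)) hDa
  set D1 : Drawing (Fin n) := ⟨insert s(a, x) D.edges, {((↑(joinWalk a [b, c] x []) : Cycle (Fin n)) ::ₘ
    (pts Q + J))} + (((↑[a', b', c'] : Cycle (Fin n)) ::ₘ (pts (x' ::ₘ Q') + J')) ::ₘ G)⟩ with hD1
  obtain ⟨hE1, hI1, hH1⟩ := hTB n D D1 hE h01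
  have hI1 := hI1 hI
  have hH1 := hH1 S χ hHom
  have hj : joinWalk a [b, c] x [] = [a, x, a, b, c] := by simp [joinWalk]
  have hj' : joinWalk a' [b', c'] x' [] = [a', x', a', b', c'] := by simp [joinWalk]
  have hD1' : D1.regions = ((↑(a' :: [b', c']) : Cycle (Fin n)) ::ₘ (↑[x'] : Cycle (Fin n)) ::ₘ (pts Q' + J')) ::ₘ
      (((↑[a, x, a, b, c] : Cycle (Fin n)) ::ₘ (pts Q + J)) ::ₘ G) := by
    rw [hD1]
    show ({((↑(joinWalk a [b, c] x []) : Cycle (Fin n)) ::ₘ (pts Q + J))} : Multiset (Region (Fin n))) +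
      (((↑[a', b', c'] : Cycle (Fin n)) ::ₘ (pts (x' ::ₘ Q') + J')) ::ₘ G) = _
    rw [hj, Multiset.singleton_add, Multiset.cons_swap, pts_cons, Multiset.cons_add]
  have hisox' := hI1 _ (((↑[a, x, a, b, c] : Cycle (Fin n)) ::ₘ (pts Q + J)) ::ₘ G) x'
    ((↑[a', b', c'] : Cycle (Fin n)) ::ₘ (pts Q' + J')) hD1' (by rw [Multiset.cons_swap])
  have hxQ' : ¬ InR {pts Q' + J'} x' := by
    intro h
    refine hisox'.2 ?_
    obtain ⟨w, hw, hxw⟩ := inR_sing.1 h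
    exact inR_sing.2 ⟨w, Multiset.mem_cons_of_mem hw, hxw⟩
  have h12 := draw_join hE1 hI1 (show a' ≠ x' from fun h => hx' (h ▸ ha')) hD1'
  set D2 : Drawing (Fin n) := ⟨insert s(a', x') D1.edges, {((↑(joinWalk a' [b', c'] x' []) : Cycle (Fin n)) ::ₘ
    (pts Q' + J'))} + (((↑[a, x, a, b, c] : Cycle (Fin n)) ::ₘ (pts Q + J)) ::ₘ G)⟩ with hD2
  obtain ⟨hE2, hI2, hH2⟩ := hTB n D1 D2 hE1 h12
  have hI2 := hI2 hI1
  have hH2 := hH2 S χ hH1
  have hD2' : D2.regions = ((↑[a', x', a', b', c'] : Cycle (Fin n)) ::ₘ (pts Q' + J')) ::ₘ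
      ((↑[a, x, a, b, c] : Cycle (Fin n)) ::ₘ (pts Q + J)) ::ₘ G := by
    rw [hD2]
    show ({((↑(joinWalk a' [b', c'] x' []) : Cycle (Fin n)) ::ₘ (pts Q' + J'))} : Multiset (Region (Fin n))) +
      (((↑[a, x, a, b, c] : Cycle (Fin n)) ::ₘ (pts Q + J)) ::ₘ G) = _
    rw [hj', Multiset.singleton_add]
  have hxY : ¬ InR (((↑[a', x', a', b', c'] : Cycle (Fin n)) ::ₘ (pts Q' + J')) ::ₘ G) x := by
    intro h
    have h1 := hisox.1
    rw [inR_iff] at h h1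
    rw [not_or, not_or] at h1
    rcases h with h | h | h
    · simp only [Cycle.mem_coe_iff, List.mem_cons, List.not_mem_nil, or_false] at h
      have hx1 : x ∉ (↑[a', b', c'] : Cycle (Fin n)) := h1.1
      have hx2 : x ≠ x' := by
        rintro rfl
        exact h1.2.1 (inR_pts (Multiset.mem_cons_self _ _))
      simp only [Cycle.mem_coe_iff, List.mem_cons, List.not_mem_nil, or_false, not_or] at hx1
      rcases h with h | h | h | h | h
      · exact hx1.1 h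
      · exact hx2 h
      · exact hx1.1 h
      · exact hx1.2.1 h
      · exact hx1.2.2 h
    · refine h1.2.1 ?_
      obtain ⟨w, hw, hxw⟩ := inR_sing.1 h
      refine inR_sing.2 ⟨w, ?_, hxw⟩
      rw [pts_cons, Multiset.cons_add]
      exact Multiset.mem_cons_of_mem hw
    · exact h1.2.2 h
  -- the strategy
  refine Wins.own 1 D D1 h01 ?_
  show Wins 1 2 .spoiler NotHam (.spoiler, 1) D1
  refine Wins.own 0 D1 D2 h12 ?_
  show Wins 1 2 .spoiler NotHam (.builder, 1) D2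
  refine Wins.opp .builder (by decide) 0 D2 ?_ ?_
  · obtain ⟨v, hv⟩ := Multiset.card_pos_iff_exists_mem.1 (show 0 < Q.card by omega)
    obtain ⟨Q₁, hQ₁⟩ := Multiset.exists_cons_of_mem hv
    refine ⟨_, draw_join (u := a) (x := v) (l := [x, a, b, c]) (R := pts Q₁ + J)
      (G := ((↑[a', x', a', b', c'] : Cycle (Fin n)) ::ₘ (pts Q' + J')) ::ₘ G) hE2 hI2 ?_ ?_⟩
    · rintro rfl
      exact hQS a hv ha
    · rw [hD2', Multiset.cons_swap, hQ₁, pts_cons, Multiset.cons_add]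
  · intro D3 h23
    show Wins 1 2 .spoiler NotHam (.spoiler, 2) D3
    apply mid_win hTB d m hwin
    obtain ⟨hE3, hI3, hH3⟩ := hTB n D2 D3 hE2 h23
    have hI3 := hI3 hI2
    have hH3 := hH3 _ _ hH2
    obtain ⟨u, v, huv, he, hedges, Φ, Ψ, F, hreg, hreg', hmove⟩ := h23
    rw [hD2'] at hreg
    rcases two hreg with ⟨F', hF', hY⟩ | ⟨F', hF', hY⟩
    · exact to_mid d m hE3 hI3 hH3 hcard hF' hY hmove hreg' ha' hb' hc' hab' hbc' hca' hx' (by omega) hQS'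
        hisox'.1 hxQ'
    · exact to_mid d m hE3 hI3 hH3 hcard hF' hY hmove hreg' ha hb hc hab hbc hca hx (by omega) hQS
        hxY hxQ

end Pool.Agent.H85.DG.TC
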